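import Pool.Agent.K1H35.SH.Stm2

/-! Piece BLK of the project SQ: existence of blocks (probabilistic method by counting). -/

namespace Pool.Agent.K1H36.SQ

open Finset Pool.Agent.K1H35.SH

/-- functions with prescribed finite sets of values on `T` and free elsewhere -/
lemma card_pi_ite {n B : ℕ} (T : Finset (Fin n)) (A : Finset (Fin B)) :
    (univ.filter (fun χ : Fin n → Fin B => ∀ v ∈ T, χ v ∈ A)).card
      = A.card ^ T.card * B ^ (n - T.card) := by
  classical
  have h : (univ.filter (fun χ : Fin n → Fin B => ∀ v ∈ T, χ v ∈ A))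
      = Fintype.piFinset (fun v => if v ∈ T then A else univ) := by
    ext χ
    simp only [mem_filter, mem_univ, true_and, Fintype.mem_piFinset]
    constructor
    · intro h v
      by_cases hv : v ∈ T
      · simp [hv, h v hv]
      · simp [hv]
    · intro h v hv
      have := h v
      simpa [hv] using this
  rw [h, Fintype.card_piFinset]
  have h2 : ∀ v : Fin n, (if v ∈ T then A else univ).card = if v ∈ T then A.card else B := by
    intro v
    split_ifs <;> simp
  simp only [h2]
  rw [Finset.prod_ite]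
  simp only [prod_const]
  have h3 : (univ.filter (fun v : Fin n => v ∈ T)) = T := by ext; simp
  have h4 : (univ.filter (fun v : Fin n => v ∉ T)).card = n - T.card := by
    have : (univ.filter (fun v : Fin n => v ∉ T)) = Tᶜ := by ext; simp
    rw [this, card_compl, Fintype.card_fin]
  rw [h3, h4]

lemma two_mul_pow (B : ℕ) (hB : 2 ≤ B) : 2 * (B - 1) ^ B ≤ B ^ B := by
  obtain ⟨m, rfl⟩ : ∃ m, B = m + 1 := ⟨B - 1, by omega⟩
  have hm : 1 ≤ m := by omega
  simp only [Nat.add_sub_cancel]
  have hm' : (0 : ℝ) < m := by exact_mod_cast hm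
  have h1 : (1 + ((m + 1 : ℕ) : ℝ) * (1 / (m : ℝ))) ≤ (1 + 1 / (m : ℝ)) ^ (m + 1) :=
    one_add_mul_le_pow (by
      have : (0 : ℝ) < 1 / m := by positivity
      linarith) (m + 1)
  have h2 : (2 : ℝ) ≤ 1 + ((m + 1 : ℕ) : ℝ) * (1 / (m : ℝ)) := by
    have : (1 : ℝ) ≤ ((m + 1 : ℕ) : ℝ) * (1 / (m : ℝ)) := by
      rw [mul_one_div, le_div_iff₀ hm']
      push_cast
      linarith
    linarith
  have h3 : (1 + 1 / (m : ℝ)) ^ (m + 1) * (m : ℝ) ^ (m + 1) = ((m : ℝ) + 1) ^ (m + 1) := by
    rw [← mul_pow]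
    congr 1
    field_simp
  have h4 : (2 : ℝ) * (m : ℝ) ^ (m + 1) ≤ ((m : ℝ) + 1) ^ (m + 1) := by
    rw [← h3]
    exact mul_le_mul_of_nonneg_right (h2.trans h1) (by positivity)
  exact_mod_cast h4

lemma miss_pow (B L N : ℕ) (hB : 2 ≤ B) (hN : 6 * L * B ≤ N) :
    (B - 1) ^ N * 2 ^ (6 * L) ≤ B ^ N := by
  obtain ⟨r, rfl⟩ : ∃ r, N = 6 * L * B + r := ⟨N - 6 * L * B, by omega⟩
  have h1 : ((B - 1) ^ B) ^ (6 * L) * 2 ^ (6 * L) ≤ (B ^ B) ^ (6 * L) := by
    rw [← mul_pow]
    apply Nat.pow_le_pow_left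
    have := two_mul_pow B hB
    linarith [mul_comm ((B - 1) ^ B) 2]
  have h2 : (B - 1) ^ r ≤ B ^ r := Nat.pow_le_pow_left (by omega) _
  calc (B - 1) ^ (6 * L * B + r) * 2 ^ (6 * L)
      = ((B - 1) ^ B) ^ (6 * L) * 2 ^ (6 * L) * (B - 1) ^ r := by
        rw [pow_add, mul_comm (6 * L) B, pow_mul]; ring
    _ ≤ (B ^ B) ^ (6 * L) * B ^ r := Nat.mul_le_mul h1 h2
    _ = B ^ (6 * L * B + r) := by rw [pow_add, mul_comm (6 * L) B, pow_mul B B (6 * L)]

lemma miss_card {n : ℕ} (B L : ℕ) (hB : 2 ≤ B) (T : Finset (Fin n)) (hT : 6 * L * B ≤ T.card)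
    (b : Fin B) :
    (univ.filter (fun χ : Fin n → Fin B => ∀ v ∈ T, χ v ≠ b)).card * 2 ^ (6 * L) ≤ B ^ n := by
  classical
  have h := card_pi_ite T (univ.erase b)
  have h1 : (univ.filter (fun χ : Fin n → Fin B => ∀ v ∈ T, χ v ≠ b))
      = (univ.filter (fun χ : Fin n → Fin B => ∀ v ∈ T, χ v ∈ univ.erase b)) := by
    ext χ; simp
  rw [h1, h, card_erase_of_mem (mem_univ _), card_univ, Fintype.card_fin]
  have hle : T.card ≤ n := by
    have := card_le_univ T
    simpa using this
  calc (B - 1) ^ T.card * B ^ (n - T.card) * 2 ^ (6 * L)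
      = ((B - 1) ^ T.card * 2 ^ (6 * L)) * B ^ (n - T.card) := by ring
    _ ≤ B ^ T.card * B ^ (n - T.card) :=
        Nat.mul_le_mul_right _ (miss_pow B L _ hB hT)
    _ = B ^ n := by rw [← pow_add]; congr 1; omega

lemma pow_self_le (c : ℕ) : c ^ c ≤ 3 ^ c * c.factorial := by
  have h1 : (c : ℝ) ^ c / (c.factorial : ℝ) ≤ Real.exp c :=
    Real.pow_div_factorial_le_exp _ (Nat.cast_nonneg _) _
  have h2 : Real.exp (c : ℝ) ≤ 3 ^ c := by
    have : (c : ℝ) = c * 1 := by ring
    rw [this, Real.exp_nat_mul]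
    exact pow_le_pow_left₀ (Real.exp_pos _).le (by linarith [Real.exp_one_lt_d9]) _
  have h3 : (0 : ℝ) < (c.factorial : ℝ) := by exact_mod_cast Nat.factorial_pos c
  have h4 : (c : ℝ) ^ c ≤ 3 ^ c * (c.factorial : ℝ) := by
    rw [← div_le_iff₀ h3]
    exact h1.trans h2
  exact_mod_cast h4

lemma choose_two_pow (N c B : ℕ) (hc : 1 ≤ c) (h : 6 * N ≤ c * B) :
    N.choose c * 2 ^ c ≤ B ^ c := by
  have h1 : c.factorial * N.choose c ≤ N ^ c := by
    rw [← Nat.descFactorial_eq_factorial_mul_choose]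
    exact Nat.descFactorial_le_pow N c
  have h2 := pow_self_le c
  have h3 : N.choose c * 2 ^ c * c ^ c ≤ B ^ c * c ^ c := by
    calc N.choose c * 2 ^ c * c ^ c ≤ N.choose c * 2 ^ c * (3 ^ c * c.factorial) :=
          Nat.mul_le_mul_left _ h2
      _ = (c.factorial * N.choose c) * (2 * 3) ^ c := by rw [mul_pow]; ring
      _ ≤ N ^ c * (2 * 3) ^ c := Nat.mul_le_mul_right _ h1
      _ = (6 * N) ^ c := by rw [← mul_pow]; ring
      _ ≤ (c * B) ^ c := Nat.pow_le_pow_left h _
      _ = B ^ c * c ^ c := by rw [mul_pow]; ring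
  exact Nat.le_of_mul_le_mul_right h3 (by positivity)

lemma many_card {n : ℕ} (B L c : ℕ) (T : Finset (Fin n)) (hL : 1 ≤ L) (hc : 6 * L ≤ c)
    (hT : 6 * T.card ≤ c * B) (b : Fin B) :
    (univ.filter (fun χ : Fin n → Fin B => c + 1 ≤ (T.filter (fun v => χ v = b)).card)).card
      * 2 ^ (6 * L) ≤ B ^ n := by
  classical
  have hsub : (univ.filter (fun χ : Fin n → Fin B => c + 1 ≤ (T.filter (fun v => χ v = b)).card))
      ⊆ (T.powersetCard c).biUnion
        (fun S => univ.filter (fun χ : Fin n → Fin B => ∀ v ∈ S, χ v ∈ ({b} : Finset (Fin B)))) := by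
    intro χ hχ
    simp only [mem_filter, mem_univ, true_and] at hχ
    obtain ⟨S, hS, hSc⟩ := Finset.exists_subset_card_eq (show c ≤ _ from by omega : c ≤ (T.filter (fun v => χ v = b)).card)
    simp only [mem_biUnion, mem_powersetCard, mem_filter, mem_univ, true_and]
    refine ⟨S, ⟨hS.trans (filter_subset _ _), hSc⟩, fun v hv => ?_⟩
    have := hS hv
    simp only [mem_filter] at this
    simp [this.2]
  have h1 : (univ.filter (fun χ : Fin n → Fin B =>
      c + 1 ≤ (T.filter (fun v => χ v = b)).card)).card ≤ T.card.choose c * B ^ (n - c) := by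
    refine (card_le_card hsub).trans ?_
    refine (card_biUnion_le).trans ?_
    rw [← card_powersetCard, ← smul_eq_mul, ← sum_const]
    refine sum_le_sum fun S hS => ?_
    rw [mem_powersetCard] at hS
    rw [card_pi_ite, card_singleton, one_pow, one_mul, hS.2]
  have hle : T.card ≤ n := by
    have := card_le_univ T
    simpa using this
  by_cases hcn : c ≤ n
  · have h2 : 2 ^ (6 * L) ≤ 2 ^ c := Nat.pow_le_pow_right (by norm_num) hc
    calc _ ≤ T.card.choose c * B ^ (n - c) * 2 ^ c := Nat.mul_le_mul h1 h2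
      _ = (T.card.choose c * 2 ^ c) * B ^ (n - c) := by ring
      _ ≤ B ^ c * B ^ (n - c) := Nat.mul_le_mul_right _ (choose_two_pow _ _ _ (by omega) hT)
      _ = B ^ n := by rw [← pow_add]; congr 1; omega
  · have : T.card.choose c = 0 := Nat.choose_eq_zero_of_lt (by omega)
    rw [this, zero_mul] at h1
    have h0 : (univ.filter (fun χ : Fin n → Fin B =>
      c + 1 ≤ (T.filter (fun v => χ v = b)).card)).card = 0 := by omega
    rw [h0, zero_mul]
    exact Nat.zero_le _

lemma ncard_sep {n B : ℕ} (T : Finset (Fin n)) (χ : Fin n → Fin B) (b : Fin B) :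
    ({v ∈ T | χ v = b} : Set (Fin n)).ncard = (T.filter (fun v => χ v = b)).card := by
  classical
  rw [← Set.ncard_coe_finset]
  congr 1
  ext v
  simp

theorem t_BLK : S_BLK := by
  classical
  intro n B L t M c c2 T hn hL hB hT ht hM hc hc2 hL2
  by_cases hn2 : n ≤ 1
  · refine ⟨fun _ => ⟨0, by omega⟩, ?_, ?_⟩
    · intro x y hxy
      exfalso
      apply hxy
      apply Fin.ext
      have := x.2
      have := y.2
      omega
    · intro b
      have h1 : ({v | (fun _ : Fin n => (⟨0, by omega⟩ : Fin B)) v = b} : Set (Fin n)).ncard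
          ≤ (Set.univ : Set (Fin n)).ncard := Set.ncard_le_ncard (Set.subset_univ _)
      rw [Set.ncard_univ, Nat.card_eq_fintype_card, Fintype.card_fin] at h1
      omega
  push Not at hn2
  have hBn : 6 * B ≤ n := by
    have h01 : (⟨0, by omega⟩ : Fin n) ≠ ⟨1, by omega⟩ := by
      intro h
      have := congrArg Fin.val h
      simp at this
    have h1 := (hT _ _ h01).1
    have h2 := card_le_univ (T ⟨0, by omega⟩ ⟨1, by omega⟩)
    rw [Fintype.card_fin] at h2
    have h3 : 6 * B ≤ 6 * L * B := by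
      calc 6 * B = 6 * 1 * B := by ring
        _ ≤ 6 * L * B := Nat.mul_le_mul_right _ (by omega)
    omega
  by_contra hcon
  push Not at hcon
  -- bad events
  let A : (Fin n × Fin n) × Fin B → Finset (Fin n → Fin B) := fun p =>
    univ.filter (fun χ => p.1.1 ≠ p.1.2 ∧ ∀ v ∈ T p.1.1 p.1.2, χ v ≠ p.2)
  let A' : (Fin n × Fin n) × Fin B → Finset (Fin n → Fin B) := fun p =>
    univ.filter (fun χ => p.1.1 ≠ p.1.2 ∧
      c + 1 ≤ ((T p.1.1 p.1.2).filter (fun v => χ v = p.2)).card)
  let C : Fin B → Finset (Fin n → Fin B) := fun b =>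
    univ.filter (fun χ => c2 + 1 ≤ ((univ : Finset (Fin n)).filter (fun v => χ v = b)).card)
  have hcov : (univ : Finset (Fin n → Fin B)) ⊆
      (univ.biUnion A ∪ univ.biUnion A') ∪ univ.biUnion C := by
    intro χ _
    by_contra hχ
    simp only [mem_union, mem_biUnion, mem_univ, true_and, not_or, not_exists, A, A', C,
      mem_filter, not_and] at hχ
    obtain ⟨⟨h1, h2⟩, h3⟩ := hχ
    refine absurd (hcon χ ?_) ?_
    · intro x y hxy b
      rw [ncard_sep]
      constructor
      · have := h1 ⟨(x, y), b⟩ hxy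
        push Not at this
        obtain ⟨v, hv, hvb⟩ := this
        exact card_pos.mpr ⟨v, by simp [hv, hvb]⟩
      · have := h2 ⟨(x, y), b⟩ hxy
        simp only at this
        omega
    · push Not
      intro b
      have := h3 b
      have e : ({v | χ v = b} : Set (Fin n)).ncard
          = ((univ : Finset (Fin n)).filter (fun v => χ v = b)).card := by
        rw [← ncard_sep]; congr 1; ext; simp
      rw [e]
      omega
  have hA : ∀ p, (A p).card * 2 ^ (6 * L) ≤ B ^ n := by
    intro p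
    by_cases hp : p.1.1 ≠ p.1.2
    · have : A p = univ.filter (fun χ => ∀ v ∈ T p.1.1 p.1.2, χ v ≠ p.2) := by
        simp [A, hp]
      rw [this]
      exact miss_card B L hB _ (ht.trans (hT _ _ hp).1) _
    · have : A p = ∅ := by
        simp only [A]
        apply filter_eq_empty_iff.mpr
        intro χ _ h
        exact hp h.1
      rw [this]
      simp
  have hA' : ∀ p, (A' p).card * 2 ^ (6 * L) ≤ B ^ n := by
    intro p
    by_cases hp : p.1.1 ≠ p.1.2
    · have : A' p = univ.filter (fun χ : Fin n → Fin B =>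
          c + 1 ≤ ((T p.1.1 p.1.2).filter (fun v => χ v = p.2)).card) := by
        simp [A', hp]
      rw [this]
      refine many_card B L c _ hL hc ?_ _
      have := (hT _ _ hp).2
      omega
    · have : A' p = ∅ := by
        simp only [A']
        apply filter_eq_empty_iff.mpr
        intro χ _ h
        exact hp h.1
      rw [this]
      simp
  have hC : ∀ b, (C b).card * 2 ^ (6 * L) ≤ B ^ n := by
    intro b
    refine many_card B L c2 _ hL hL2 ?_ _
    rw [card_univ, Fintype.card_fin]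
    exact hc2
  have hcard : (univ : Finset (Fin n → Fin B)).card = B ^ n := by
    rw [card_univ]; simp
  have hsum : B ^ n ≤ (∑ p, (A p).card + ∑ p, (A' p).card) + ∑ b, (C b).card := by
    rw [← hcard]
    refine (card_le_card hcov).trans ?_
    refine (card_union_le _ _).trans ?_
    refine Nat.add_le_add ((card_union_le _ _).trans ?_) card_biUnion_le
    exact Nat.add_le_add card_biUnion_le card_biUnion_le
  have hsum2 : B ^ n * 2 ^ (6 * L) ≤ (2 * (n * n * B) + B) * B ^ n := by
    calc B ^ n * 2 ^ (6 * L)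
        ≤ ((∑ p, (A p).card + ∑ p, (A' p).card) + ∑ b, (C b).card) * 2 ^ (6 * L) :=
          Nat.mul_le_mul_right _ hsum
      _ = (∑ p, (A p).card * 2 ^ (6 * L) + ∑ p, (A' p).card * 2 ^ (6 * L))
          + ∑ b, (C b).card * 2 ^ (6 * L) := by
          rw [add_mul, add_mul, sum_mul, sum_mul, sum_mul]
      _ ≤ (∑ _p : (Fin n × Fin n) × Fin B, B ^ n + ∑ _p : (Fin n × Fin n) × Fin B, B ^ n)
          + ∑ _b : Fin B, B ^ n :=
          Nat.add_le_add (Nat.add_le_add (sum_le_sum fun p _ => hA p) (sum_le_sum fun p _ => hA' p))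
            (sum_le_sum fun b _ => hC b)
      _ = (2 * (n * n * B) + B) * B ^ n := by
          simp only [sum_const, card_univ, Fintype.card_prod, Fintype.card_fin, smul_eq_mul]
          ring
  have hpos : 0 < B ^ n := by positivity
  have h6 : 2 ^ (6 * L) ≤ 2 * (n * n * B) + B := by
    rw [mul_comm] at hsum2
    exact Nat.le_of_mul_le_mul_right hsum2 hpos
  have h7 : 2 * (n * n * B) + B ≤ n * n * n := by
    have e1 : 6 * (2 * (n * n * B) + B) = 2 * (n * n) * (6 * B) + 6 * B := by ring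
    have e2 : 2 * (n * n) * (6 * B) ≤ 2 * (n * n) * n := Nat.mul_le_mul_left _ hBn
    have e3 : n ≤ n * n * n := by nlinarith
    nlinarith
  have h8 : n * n * n ≤ 2 ^ (3 * L) := by
    have : n * n * n = n ^ 3 := by ring
    rw [this, mul_comm 3 L, pow_mul]
    exact Nat.pow_le_pow_left hn 3
  have h9 : 2 ^ (3 * L) < 2 ^ (6 * L) := Nat.pow_lt_pow_right (by norm_num) (by omega)
  omega

end Pool.Agent.K1H36.SQ
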